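import Mathlib

/-!
# Project DK: auxiliary facts for the Casimir element of a real Lie algebra of endomorphisms
-/

namespace Pool.Agent.W308.DK.CAS

open Module

/-- A positive definite symmetric form has an orthonormal basis. -/
theorem exists_onb {G : Type} [AddCommGroup G] [Module ℝ G] [FiniteDimensional ℝ G]
    (B : LinearMap.BilinForm ℝ G) (hs : ∀ x y, B x y = B y x) (hp : ∀ x, x ≠ 0 → 0 < B x x) :
    ∃ (m : ℕ) (x : Fin m → G), (∀ i j, B (x i) (x j) = if i = j then 1 else 0) ∧
      ∀ y, y = ∑ i, B y (x i) • x i := by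
  classical
  have : Invertible (2 : ℝ) := invertibleOfNonzero two_ne_zero
  obtain ⟨v, hv⟩ := LinearMap.BilinForm.exists_orthogonal_basis (B := B)
    ⟨fun x y => hs x y⟩
  refine ⟨finrank ℝ G, fun i => (Real.sqrt (B (v i) (v i)))⁻¹ • v i, ?_, ?_⟩
  · intro i j
    have hpi : 0 < B (v i) (v i) := hp _ (v.ne_zero i)
    by_cases hij : i = j
    · subst hij
      simp only [map_smul, LinearMap.smul_apply, smul_eq_mul, if_true]
      rw [← mul_assoc, ← mul_inv, Real.mul_self_sqrt hpi.le, inv_mul_cancel₀ hpi.ne']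
    · have h0 : B (v i) (v j) = 0 := by
        have := hv hij
        exact this
      simp only [map_smul, LinearMap.smul_apply, smul_eq_mul, h0, mul_zero, if_neg hij]
  · intro y
    have hpi : ∀ i, 0 < B (v i) (v i) := fun i => hp _ (v.ne_zero i)
    have hy : y = ∑ i, v.repr y i • v i := (v.sum_repr y).symm
    have hc : ∀ j, B y (v j) = v.repr y j * B (v j) (v j) := by
      intro j
      conv_lhs => rw [hy]
      rw [map_sum, LinearMap.sum_apply, Finset.sum_eq_single j]
      · rw [map_smul, LinearMap.smul_apply, smul_eq_mul]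
      · intro i _ hij
        have h0 : B (v i) (v j) = 0 := hv hij
        rw [map_smul, LinearMap.smul_apply, smul_eq_mul, h0, mul_zero]
      · intro h
        exact absurd (Finset.mem_univ j) h
    conv_lhs => rw [hy]
    apply Finset.sum_congr rfl
    intro i _
    rw [map_smul, smul_eq_mul, hc i, smul_smul]
    congr 1
    have h1 : (Real.sqrt (B (v i) (v i)))⁻¹ * (Real.sqrt (B (v i) (v i)))⁻¹
        = (B (v i) (v i))⁻¹ := by
      rw [← mul_inv, Real.mul_self_sqrt (hpi i).le]
    calc v.repr y i = v.repr y i * (B (v i) (v i) * (B (v i) (v i))⁻¹) := by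
          rw [mul_inv_cancel₀ (hpi i).ne', mul_one]
      _ = _ := by rw [← h1]; ring

section

variable {T : Type} [AddCommGroup T] [Module ℝ T] [FiniteDimensional ℝ T]

theorem tr_comm (x y : Module.End ℝ T) :
    LinearMap.trace ℝ T (x * y) = LinearMap.trace ℝ T (y * x) := LinearMap.trace_mul_comm ℝ x y

/-- A real number `a` such that `a + t c ≤ 0` for all `t` forces `c = 0`. -/
theorem lin_zero {a c e : ℝ} (h : ∀ t : ℝ, t * (2 * c) + t * t * e + a ≤ 0) (ha : a = 0) :
    c = 0 := by
  subst ha
  by_contra hc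
  have h1 : ∀ t : ℝ, 0 < t → 2 * c + t * e ≤ 0 := by
    intro t ht
    have := h t
    by_contra h2
    push Not at h2
    have : 0 < t * (2 * c + t * e) := mul_pos ht h2
    nlinarith
  have h2 : ∀ t : ℝ, 0 < t → 0 ≤ 2 * c - t * e := by
    intro t ht
    have := h (-t)
    by_contra h2
    push Not at h2
    have : 0 < t * (-(2 * c - t * e)) := mul_pos ht (by linarith)
    nlinarith
  rcases lt_or_gt_of_ne hc with hc | hc
  · have h3 := h2 (-c / (|e| + 1)) (div_pos (neg_pos.mpr hc) (by positivity))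
    have h4 : |(-c / (|e| + 1)) * e| ≤ -c := by
      rw [abs_mul, abs_div, abs_of_pos (show 0 < -c by linarith),
        abs_of_pos (show 0 < |e| + 1 by positivity), div_mul_eq_mul_div, div_le_iff₀ (by positivity)]
      nlinarith [abs_nonneg e]
    have h5 := neg_abs_le ((-c / (|e| + 1)) * e)
    linarith
  · have h3 := h1 (c / (|e| + 1)) (by positivity)
    have h4 : |(c / (|e| + 1)) * e| ≤ c := by
      rw [abs_mul, abs_div, abs_of_pos hc,
        abs_of_pos (show 0 < |e| + 1 by positivity), div_mul_eq_mul_div, div_le_iff₀ (by positivity)]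
      nlinarith [abs_nonneg e]
    have h5 := neg_abs_le ((c / (|e| + 1)) * e)
    linarith

/-- The trace form on `g`. -/
noncomputable def tf (g : Submodule ℝ (Module.End ℝ T)) : LinearMap.BilinForm ℝ g :=
  LinearMap.mk₂ ℝ (fun x y => -LinearMap.trace ℝ T (x.1 * y.1))
    (by intro a b c; simp only [Submodule.coe_add, add_mul, map_add]; ring)
    (by intro a b c; simp only [Submodule.coe_smul, smul_mul_assoc, map_smul, smul_eq_mul]; ring)
    (by intro a b c; simp only [Submodule.coe_add, mul_add, map_add]; ring)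
    (by intro a b c; simp only [Submodule.coe_smul, mul_smul_comm, map_smul, smul_eq_mul]; ring)

theorem tf_apply (g : Submodule ℝ (Module.End ℝ T)) (x y : g) :
    tf g x y = -LinearMap.trace ℝ T (x.1 * y.1) := rfl

/-- An orthonormal basis of a space of endomorphisms for the trace form. -/
theorem exists_basis (g : Submodule ℝ (Module.End ℝ T))
    (h1 : ∀ x ∈ g, LinearMap.trace ℝ T (x * x) ≤ 0)
    (h2 : ∀ x ∈ g, (∀ y ∈ g, LinearMap.trace ℝ T (x * y) = 0) → x = 0) :
    ∃ (m : ℕ) (x : Fin m → Module.End ℝ T), (∀ i, x i ∈ g) ∧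
      (∀ i j, LinearMap.trace ℝ T (x i * x j) = if i = j then -1 else 0) ∧
      ∀ y ∈ g, y = ∑ i, (-LinearMap.trace ℝ T (y * x i)) • x i := by
  have hpos : ∀ x : g, x ≠ 0 → 0 < tf g x x := by
    intro x hx
    rw [tf_apply]
    have ha := h1 x.1 x.2
    rcases ha.lt_or_eq with h | h
    · linarith
    · exfalso
      apply hx
      apply Subtype.ext
      apply h2 x.1 x.2
      intro y hy
      have hq : ∀ t : ℝ, t * (2 * LinearMap.trace ℝ T (x.1 * y)) +
          t * t * LinearMap.trace ℝ T (y * y) + LinearMap.trace ℝ T (x.1 * x.1) ≤ 0 := by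
        intro t
        have h3 := h1 (x.1 + t • y) (g.add_mem x.2 (g.smul_mem t hy))
        have h4 : (x.1 + t • y) * (x.1 + t • y) =
            x.1 * x.1 + t • (x.1 * y) + t • (y * x.1) + (t * t) • (y * y) := by
          simp only [add_mul, mul_add, smul_mul_assoc, mul_smul_comm, smul_add]
          rw [← smul_smul]
          abel
        rw [h4] at h3
        simp only [map_add, map_smul, smul_eq_mul] at h3
        rw [tr_comm y x.1] at h3
        linarith
      exact lin_zero hq h
  obtain ⟨m, x, hx, hy⟩ := exists_onb (tf g)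
    (fun x y => by rw [tf_apply, tf_apply, tr_comm]) hpos
  refine ⟨m, fun i => (x i).1, fun i => (x i).2, ?_, ?_⟩
  · intro i j
    have := hx i j
    rw [tf_apply] at this
    split_ifs at this ⊢ <;> linarith
  · intro y hyg
    have := congrArg Subtype.val (hy ⟨y, hyg⟩)
    simp only [Submodule.coe_sum, Submodule.coe_smul, tf_apply] at this
    exact this

/-- The Casimir identity. -/
theorem casimir {m : ℕ} {g : Submodule ℝ (Module.End ℝ T)} {x : Fin m → Module.End ℝ T}
    (hbr : ∀ x ∈ g, ∀ y ∈ g, x * y - y * x ∈ g) (hx : ∀ i, x i ∈ g)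
    (hex : ∀ y ∈ g, y = ∑ i, (-LinearMap.trace ℝ T (y * x i)) • x i)
    {M : Type} [AddCommGroup M] [Module ℝ M]
    (Ψ : Module.End ℝ T →ₗ[ℝ] Module.End ℝ T →ₗ[ℝ] M) {y : Module.End ℝ T} (hy : y ∈ g) :
    ∑ i, (Ψ (y * x i - x i * y) (x i) + Ψ (x i) (y * x i - x i * y)) = 0 := by
  set c : Fin m → Fin m → ℝ := fun i j =>
    -LinearMap.trace ℝ T ((y * x i - x i * y) * x j) with hc
  have hexp : ∀ i, y * x i - x i * y = ∑ j, c i j • x j := fun i => hex _ (hbr y hy _ (hx i))
  have hanti : ∀ i j, c i j = - c j i := by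
    intro i j
    simp only [hc, sub_mul, map_sub]
    have e1 : LinearMap.trace ℝ T (x i * y * x j) = LinearMap.trace ℝ T (y * x j * x i) := by
      rw [mul_assoc, tr_comm]
    have e2 : LinearMap.trace ℝ T (x j * y * x i) = LinearMap.trace ℝ T (y * x i * x j) := by
      rw [mul_assoc, tr_comm]
    rw [e1, e2]
    ring
  have e1 : ∑ i, Ψ (y * x i - x i * y) (x i) = ∑ i, ∑ j, c i j • Ψ (x j) (x i) := by
    apply Finset.sum_congr rfl
    intro i _
    conv_lhs => rw [hexp i]
    rw [map_sum, LinearMap.sum_apply]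
    apply Finset.sum_congr rfl
    intro j _
    rw [map_smul, LinearMap.smul_apply]
  have e2 : ∑ i, Ψ (x i) (y * x i - x i * y) = ∑ i, ∑ j, c i j • Ψ (x i) (x j) := by
    apply Finset.sum_congr rfl
    intro i _
    conv_lhs => rw [hexp i]
    rw [map_sum]
    apply Finset.sum_congr rfl
    intro j _
    rw [map_smul]
  rw [Finset.sum_add_distrib, e1, e2, Finset.sum_comm, ← Finset.sum_add_distrib]
  apply Finset.sum_eq_zero
  intro i _
  rw [← Finset.sum_add_distrib]
  apply Finset.sum_eq_zero
  intro j _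
  rw [hanti j i, neg_smul, neg_add_cancel]

end

section Engel

attribute [local instance 100] LieRing.ofAssociativeRing

variable {V : Type} [AddCommGroup V] [Module ℝ V] [FiniteDimensional ℝ V]

/-- The Lie algebra given by a subspace closed under brackets. -/
def toLie (𝔯 : Submodule ℝ (Module.End ℝ V)) (hbr : ∀ X ∈ 𝔯, ∀ Y ∈ 𝔯, X * Y - Y * X ∈ 𝔯) :
    LieSubalgebra ℝ (Module.End ℝ V) :=
  { 𝔯 with
    lie_mem' := by
      intro X Y hX hY
      exact hbr X hX Y hY }

/-- A perfect Lie algebra of nilpotent endomorphisms is zero. -/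
theorem engel_perfect (𝔰 : Submodule ℝ (Module.End ℝ V))
    (hbr : ∀ X ∈ 𝔰, ∀ Y ∈ 𝔰, X * Y - Y * X ∈ 𝔰) (hnil : ∀ X ∈ 𝔰, IsNilpotent X)
    (hperf : 𝔰 ≤ Submodule.span ℝ {Z | ∃ X ∈ 𝔰, ∃ Y ∈ 𝔰, Z = X * Y - Y * X}) :
    ∀ X ∈ 𝔰, X = 0 := by
  let L := toLie 𝔰 hbr
  have hE : ∀ X : L, LieModule.toEnd ℝ L V X = X.1 := by
    intro X
    ext v
    rfl
  have hnilp : LieModule.IsNilpotent L V := by
    rw [LieModule.isNilpotent_iff_forall (R := ℝ)]
    intro X
    rw [hE]
    exact hnil X.1 X.2
  rw [LieModule.isNilpotent_iff ℝ] at hnilp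
  obtain ⟨k, hk⟩ := hnilp
  have key : ∀ k : ℕ, ∀ X ∈ 𝔰, ∀ v : V, ∀ j : ℕ, v ∈ LieModule.lowerCentralSeries ℝ L V j →
      X v ∈ LieModule.lowerCentralSeries ℝ L V (j + k) := by
    intro k
    induction k with
    | zero =>
      intro X hX v j hv
      exact (LieModule.lowerCentralSeries ℝ L V j).lie_mem (x := (⟨X, hX⟩ : L)) hv
    | succ k ih =>
      intro X hX v j hv
      have hX' := hperf hX
      clear hX
      induction hX' using Submodule.span_induction with
      | mem Z hZ =>
        obtain ⟨A, hA, B, hB, rfl⟩ := hZ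
        rw [LinearMap.sub_apply, Module.End.mul_apply, Module.End.mul_apply]
        have step : ∀ A ∈ 𝔰, ∀ B ∈ 𝔰, A (B v) ∈ LieModule.lowerCentralSeries ℝ L V (j + (k + 1)) := by
          intro A hA B hB
          have h1 := ih B hB v j hv
          rw [← add_assoc, LieModule.lowerCentralSeries_succ]
          exact LieSubmodule.lie_mem_lie (LieSubmodule.mem_top (⟨A, hA⟩ : L)) h1
        exact sub_mem (step A hA B hB) (step B hB A hA)
      | zero =>
        rw [LinearMap.zero_apply]
        exact zero_mem _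
      | add A B _ _ hA hB =>
        rw [LinearMap.add_apply]
        exact add_mem hA hB
      | smul a A _ hA =>
        rw [LinearMap.smul_apply]
        exact (LieModule.lowerCentralSeries ℝ L V (j + (k + 1))).smul_mem a hA
  intro X hX
  ext v
  have := key k X hX v 0 (by rw [LieModule.lowerCentralSeries_zero]; trivial)
  rw [zero_add, hk] at this
  exact this

end Engel

end Pool.Agent.W308.DK.CAS
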