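import Mathlib
import Pool.Agent.W516.K3.Defs2
import Pool.Agent.W308.DK.CasA

/-!
# Project DK: the Casimir argument
-/

namespace Pool.Agent.W308.DK.CAS

open Module
open Pool.Agent.W516.K3

/-- The bilinear forms on a space. -/
abbrev Fm (T : Type) [AddCommGroup T] [Module ℝ T] : Type := T →ₗ[ℝ] T →ₗ[ℝ] ℝ

section

variable {T : Type} [AddCommGroup T] [Module ℝ T]

/-- `h ↦ h (a ·) (a ·)`. -/
def phi1 (a : Module.End ℝ T) : Fm T →ₗ[ℝ] Fm T where
  toFun h := h.compl₁₂ a a
  map_add' h k := by
    ext u v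
    simp
  map_smul' c h := by
    ext u v
    simp

theorem phi1_apply (a : Module.End ℝ T) (h : Fm T) (u v : T) :
    phi1 a h u v = h (a u) (a v) := rfl

/-- `h ↦ - h (a ·) · - h · (a ·)`. -/
def rho (a : Module.End ℝ T) : Module.End ℝ (Fm T) where
  toFun h := -(h ∘ₗ a) - h.compl₂ a
  map_add' h k := by
    ext u v
    simp
    ring
  map_smul' c h := by
    ext u v
    simp
    ring

theorem rho_apply (a : Module.End ℝ T) (h : Fm T) (u v : T) :
    rho a h u v = - h (a u) v - h u (a v) := rfl

/-- `rho` as a linear map. -/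
def rhoL : Module.End ℝ T →ₗ[ℝ] Module.End ℝ (Fm T) where
  toFun := rho
  map_add' a a' := by
    refine LinearMap.ext fun h => LinearMap.ext₂ fun u v => ?_
    simp only [LinearMap.add_apply, rho_apply, map_add]
    ring
  map_smul' c a := by
    refine LinearMap.ext fun h => LinearMap.ext₂ fun u v => ?_
    simp only [LinearMap.smul_apply, rho_apply, map_smul, RingHom.id_apply, smul_eq_mul]
    ring

theorem rhoL_apply (a : Module.End ℝ T) : rhoL a = rho a := rfl

theorem rho_bracket (a a' : Module.End ℝ T) (h : Fm T) :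
    rho (a * a' - a' * a) h = rho a (rho a' h) - rho a' (rho a h) := by
  refine LinearMap.ext₂ fun u v => ?_
  simp only [LinearMap.sub_apply, Module.End.mul_apply, rho_apply, map_sub]
  ring

end

section

variable {T : Type} [AddCommGroup T] [Module ℝ T] [FiniteDimensional ℝ T]

/-- The equivalence with the dual space given by a nondegenerate form. -/
noncomputable def eqv (b : Fm T) (hnd : ∀ u, (∀ v, b u v = 0) → u = 0) :
    T ≃ₗ[ℝ] (T →ₗ[ℝ] ℝ) :=
  LinearEquiv.ofInjectiveOfFinrankEq b
    (by
      rw [injective_iff_map_eq_zero]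
      intro u hu
      apply hnd
      intro v
      rw [hu, LinearMap.zero_apply])
    (by
      have := Subspace.dual_finrank_eq (K := ℝ) (V := T)
      exact this.symm)

theorem eqv_apply (b : Fm T) (hnd : ∀ u, (∀ v, b u v = 0) → u = 0) (u : T) :
    eqv b hnd u = b u := rfl

/-- The endomorphism given by a form. -/
noncomputable def opP (b : Fm T) (hnd : ∀ u, (∀ v, b u v = 0) → u = 0) (h : Fm T) :
    Module.End ℝ T := (eqv b hnd).symm.toLinearMap ∘ₗ h

theorem opP_spec (b : Fm T) (hnd : ∀ u, (∀ v, b u v = 0) → u = 0) (h : Fm T) (u v : T) :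
    b (opP b hnd h u) v = h u v := by
  have h1 : eqv b hnd (opP b hnd h u) = h u := by
    rw [opP, LinearMap.comp_apply]
    exact (eqv b hnd).apply_symm_apply (h u)
  rw [eqv_apply] at h1
  rw [h1]

theorem opP_unique (b : Fm T) (hnd : ∀ u, (∀ v, b u v = 0) → u = 0) (h : Fm T)
    (P : Module.End ℝ T) (hP : ∀ u v, b (P u) v = h u v) : opP b hnd h = P := by
  ext u
  have h1 : opP b hnd h u - P u = 0 := by
    apply hnd
    intro v
    rw [map_sub, LinearMap.sub_apply, opP_spec, hP, sub_self]
  exact sub_eq_zero.mp h1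

/-- The normalised trace of a form. -/
noncomputable def kap (b : Fm T) (hnd : ∀ u, (∀ v, b u v = 0) → u = 0) : Fm T →ₗ[ℝ] ℝ where
  toFun h := (finrank ℝ T : ℝ)⁻¹ * LinearMap.trace ℝ T (opP b hnd h)
  map_add' h k := by
    have h1 : opP b hnd (h + k) = opP b hnd h + opP b hnd k := by
      apply opP_unique
      intro u v
      simp only [LinearMap.add_apply, map_add, opP_spec]
    rw [h1, map_add, mul_add]
  map_smul' c h := by
    have h1 : opP b hnd (c • h) = c • opP b hnd h := by
      apply opP_unique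
      intro u v
      simp only [LinearMap.smul_apply, map_smul, opP_spec]
    rw [h1, map_smul, smul_eq_mul, RingHom.id_apply, smul_eq_mul]
    ring

theorem kap_apply (b : Fm T) (hnd : ∀ u, (∀ v, b u v = 0) → u = 0) (h : Fm T) :
    kap b hnd h = (finrank ℝ T : ℝ)⁻¹ * LinearMap.trace ℝ T (opP b hnd h) := rfl

/-- A good Lie algebra is perfect. -/
theorem perfect {b : Fm T} {g : Submodule ℝ (Module.End ℝ T)} (hg : Good b g) (hb : b ≠ 0)
    {m : ℕ} {x : Fin m → Module.End ℝ T} (hx : ∀ i, x i ∈ g)
    (hex : ∀ y ∈ g, y = ∑ i, (-LinearMap.trace ℝ T (y * x i)) • x i) :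
    g ≤ Submodule.span ℝ {Z | ∃ X ∈ g, ∃ Y ∈ g, Z = X * Y - Y * X} := by
  intro y0 hy0
  by_contra hcon
  obtain ⟨f, hf1, hf2⟩ := Submodule.exists_le_ker_of_notMem hcon
  set z : Module.End ℝ T := ∑ i, f (x i) • x i with hz
  have hzg : z ∈ g := Submodule.sum_mem _ fun i _ => g.smul_mem _ (hx i)
  have htr : ∀ y ∈ g, LinearMap.trace ℝ T (z * y) = - f y := by
    intro y hy
    have h1 : f y = ∑ i, (-LinearMap.trace ℝ T (y * x i)) * f (x i) := by
      conv_lhs => rw [hex y hy]
      rw [map_sum]
      apply Finset.sum_congr rfl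
      intro i _
      rw [map_smul, smul_eq_mul]
    rw [h1, hz, Finset.sum_mul, map_sum, ← Finset.sum_neg_distrib]
    apply Finset.sum_congr rfl
    intro i _
    rw [smul_mul_assoc, map_smul, smul_eq_mul, tr_comm (x i) y]
    ring
  have hcomm : ∀ a ∈ g, a * z = z * a := by
    intro a ha
    have h1 : z * a - a * z = 0 := by
      apply hg.trace _ (hg.bracket z hzg a ha)
      intro y hy
      have h2 := htr _ (hg.bracket a ha y hy)
      have h3 : f (a * y - y * a) = 0 := by
        have : a * y - y * a ∈ LinearMap.ker f :=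
          hf2 (Submodule.subset_span ⟨a, ha, y, hy, rfl⟩)
        exact this
      rw [h3, neg_zero] at h2
      rw [mul_sub, map_sub] at h2
      rw [sub_mul, map_sub]
      have e1 : LinearMap.trace ℝ T (a * z * y) = LinearMap.trace ℝ T (z * (y * a)) := by
        rw [mul_assoc, tr_comm, mul_assoc]
      rw [e1, mul_assoc]
      exact h2
    exact (sub_eq_zero.mp h1).symm
  obtain ⟨c, hc⟩ := hg.comm z hcomm
  have hc0 : c = 0 := by
    by_contra hc0
    apply hb
    ext u v
    have h1 := hg.skew z hzg u v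
    rw [hc] at h1
    simp only [LinearMap.smul_apply, Module.End.one_apply, map_smul, smul_eq_mul] at h1
    have h2 : c * b u v = 0 := by linarith
    rw [LinearMap.zero_apply, LinearMap.zero_apply]
    exact (mul_eq_zero.mp h2).resolve_left hc0
  have hz0 : z = 0 := by rw [hc, hc0, zero_smul]
  have h4 := htr y0 hy0
  rw [hz0, zero_mul, map_zero] at h4
  exact hf1 (by linarith)

/-- The main step, for a general representation. -/
theorem core (hNT : S_NT) {M : Type} [AddCommGroup M] [Module ℝ M] [FiniteDimensional ℝ M]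
    {m : ℕ} {g : Submodule ℝ (Module.End ℝ T)} {x : Fin m → Module.End ℝ T}
    (hbr : ∀ x ∈ g, ∀ y ∈ g, x * y - y * x ∈ g) (hx : ∀ i, x i ∈ g)
    (hex : ∀ y ∈ g, y = ∑ i, (-LinearMap.trace ℝ T (y * x i)) • x i)
    (hperf : g ≤ Submodule.span ℝ {Z | ∃ X ∈ g, ∃ Y ∈ g, Z = X * Y - Y * X})
    (ρ : Module.End ℝ T →ₗ[ℝ] Module.End ℝ M)
    (hρ : ∀ a a', ρ (a * a' - a' * a) = ρ a * ρ a' - ρ a' * ρ a)
    (hre : ∀ a ∈ g, NoRe (ρ a)) (θ : ℝ) (hθ : 0 ≤ θ) (w : M)
    (hw : ∑ i, ρ (x i) (ρ (x i) w) = θ • w) : ∀ y ∈ g, ρ y w = 0 := by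
  classical
  set Ω : Module.End ℝ M := ∑ i, ρ (x i) * ρ (x i) with hΩ
  have hcomm : ∀ y ∈ g, ρ y * Ω = Ω * ρ y := by
    intro y hy
    have h1 := casimir hbr hx hex ((LinearMap.mul ℝ (Module.End ℝ M)).compl₁₂ ρ ρ) hy
    have h2 : ∀ i, ((LinearMap.mul ℝ (Module.End ℝ M)).compl₁₂ ρ ρ) (y * x i - x i * y) (x i) +
        ((LinearMap.mul ℝ (Module.End ℝ M)).compl₁₂ ρ ρ) (x i) (y * x i - x i * y) =
        ρ y * (ρ (x i) * ρ (x i)) - (ρ (x i) * ρ (x i)) * ρ y := by
      intro i
      simp only [LinearMap.compl₁₂_apply, LinearMap.mul_apply', hρ]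
      noncomm_ring
    rw [Finset.sum_congr rfl (fun i _ => h2 i), Finset.sum_sub_distrib, ← Finset.mul_sum,
      ← Finset.sum_mul] at h1
    exact sub_eq_zero.mp h1
  let W : Submodule ℝ M := Module.End.eigenspace Ω θ
  have hst : ∀ y : g, ∀ u ∈ W, ρ y.1 u ∈ W := by
    intro y u hu
    rw [Module.End.mem_eigenspace_iff] at hu ⊢
    have h1 := congrArg (fun f : Module.End ℝ M => f u) (hcomm y.1 y.2)
    simp only [Module.End.mul_apply] at h1
    rw [← h1, hu, map_smul]
  let r : g →ₗ[ℝ] Module.End ℝ W :=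
    { toFun := fun y => (ρ y.1).restrict (hst y)
      map_add' := by
        intro y y'
        ext u
        simp [LinearMap.restrict_apply]
      map_smul' := by
        intro a y
        ext u
        simp [LinearMap.restrict_apply] }
  have hr : ∀ (y : g) (u : W), ((r y u : W) : M) = ρ y.1 u := fun y u => rfl
  have hrre : ∀ y : g, NoRe (r y) := by
    intro y a c ha v hv
    apply Subtype.ext
    apply hre y.1 y.2 a c ha v.1
    have := congrArg Subtype.val hv
    simpa [hr] using this
  have htr : ∀ y : g, LinearMap.trace ℝ W (r y * r y) ≤ 0 := fun y => (hNT.1 W (r y) (hrre y)).1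
  have hsum : ∑ i, LinearMap.trace ℝ W (r ⟨x i, hx i⟩ * r ⟨x i, hx i⟩) = θ * finrank ℝ W := by
    rw [← map_sum]
    have h1 : ∑ i, r ⟨x i, hx i⟩ * r ⟨x i, hx i⟩ = θ • (1 : Module.End ℝ W) := by
      ext u
      have hu : Ω u.1 = θ • u.1 := Module.End.mem_eigenspace_iff.mp u.2
      rw [LinearMap.sum_apply, Submodule.coe_sum]
      simp only [Module.End.mul_apply, hr, LinearMap.smul_apply, Module.End.one_apply,
        Submodule.coe_smul]
      rw [← hu, hΩ, LinearMap.sum_apply]
      rfl
    rw [h1, map_smul, LinearMap.trace_one, smul_eq_mul]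
  have hzero : ∀ i, LinearMap.trace ℝ W (r ⟨x i, hx i⟩ * r ⟨x i, hx i⟩) = 0 := by
    have h0 : ∑ i, LinearMap.trace ℝ W (r ⟨x i, hx i⟩ * r ⟨x i, hx i⟩) = 0 := by
      apply le_antisymm
      · exact Finset.sum_nonpos fun i _ => htr _
      · rw [hsum]
        positivity
    intro i
    exact (Finset.sum_eq_zero_iff_of_nonpos (fun i _ => htr _)).mp h0 i (Finset.mem_univ i)
  have hB : ∀ (i : Fin m) (y : g), LinearMap.trace ℝ W (r ⟨x i, hx i⟩ * r y) = 0 := by
    intro i y
    have hq : ∀ t : ℝ, t * (2 * LinearMap.trace ℝ W (r ⟨x i, hx i⟩ * r y)) +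
        t * t * LinearMap.trace ℝ W (r y * r y) +
          LinearMap.trace ℝ W (r ⟨x i, hx i⟩ * r ⟨x i, hx i⟩) ≤ 0 := by
      intro t
      have h3 := htr (⟨x i, hx i⟩ + t • y)
      have h4 : r (⟨x i, hx i⟩ + t • y) * r (⟨x i, hx i⟩ + t • y) =
          r ⟨x i, hx i⟩ * r ⟨x i, hx i⟩ + t • (r ⟨x i, hx i⟩ * r y) +
            t • (r y * r ⟨x i, hx i⟩) + (t * t) • (r y * r y) := by
        simp only [map_add, map_smul, add_mul, mul_add, smul_mul_assoc, mul_smul_comm, smul_add]
        rw [← smul_smul]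
        abel
      rw [h4] at h3
      simp only [map_add, map_smul, smul_eq_mul] at h3
      rw [tr_comm (r y) (r ⟨x i, hx i⟩)] at h3
      linarith
    exact lin_zero hq (hzero i)
  have hnil : ∀ y : g, IsNilpotent (r y) := by
    intro y
    apply (hNT.1 W (r y) (hrre y)).2
    have h1 : y = ∑ i, (-LinearMap.trace ℝ T (y.1 * x i)) • (⟨x i, hx i⟩ : g) := by
      apply Subtype.ext
      rw [Submodule.coe_sum]
      exact hex y.1 y.2
    have h2 : r y = ∑ i, (-LinearMap.trace ℝ T (y.1 * x i)) • r ⟨x i, hx i⟩ := by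
      conv_lhs => rw [h1]
      rw [map_sum]
      apply Finset.sum_congr rfl
      intro i _
      rw [map_smul]
    conv_lhs => rw [h2]
    rw [Finset.sum_mul, map_sum]
    apply Finset.sum_eq_zero
    intro i _
    rw [smul_mul_assoc, map_smul]
    have h3 := hB i y
    rw [h2] at h3
    rw [h3, smul_zero]
  have hrb : ∀ y y' : g, r y * r y' - r y' * r y =
      r ⟨y.1 * y'.1 - y'.1 * y.1, hbr y.1 y.2 y'.1 y'.2⟩ := by
    intro y y'
    ext u
    rw [hr, hρ]
    rfl
  have hfin := engel_perfect (LinearMap.range r) (by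
      rintro X ⟨y, rfl⟩ Y ⟨y', rfl⟩
      rw [hrb]
      exact ⟨_, rfl⟩) (by
      rintro X ⟨y, rfl⟩
      exact hnil y) (by
      rintro X ⟨y, rfl⟩
      have hD : Submodule.span ℝ {Z | ∃ X ∈ g, ∃ Y ∈ g, Z = X * Y - Y * X} ≤ g := by
        rw [Submodule.span_le]
        rintro Z ⟨X, hX, Y, hY, rfl⟩
        exact hbr X hX Y hY
      have key : ∀ z ∈ Submodule.span ℝ {Z | ∃ X ∈ g, ∃ Y ∈ g, Z = X * Y - Y * X},
          ∀ hz : z ∈ g, r ⟨z, hz⟩ ∈ Submodule.span ℝ
            {Z | ∃ X ∈ LinearMap.range r, ∃ Y ∈ LinearMap.range r, Z = X * Y - Y * X} := by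
        intro z hz
        induction hz using Submodule.span_induction with
        | mem z hz =>
          obtain ⟨X, hX, Y, hY, rfl⟩ := hz
          intro hz
          apply Submodule.subset_span
          exact ⟨r ⟨X, hX⟩, ⟨_, rfl⟩, r ⟨Y, hY⟩, ⟨_, rfl⟩, (hrb ⟨X, hX⟩ ⟨Y, hY⟩).symm⟩
        | zero =>
          intro hz
          have : (⟨0, hz⟩ : g) = 0 := rfl
          rw [this, map_zero]
          exact zero_mem _
        | add a a' ha ha' iha iha' =>
          intro hz
          have : (⟨a + a', hz⟩ : g) = ⟨a, hD ha⟩ + ⟨a', hD ha'⟩ := rfl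
          rw [this, map_add]
          exact add_mem (iha _) (iha' _)
        | smul c a ha iha =>
          intro hz
          have : (⟨c • a, hz⟩ : g) = c • ⟨a, hD ha⟩ := rfl
          rw [this, map_smul]
          exact Submodule.smul_mem _ c (iha _)
      exact key y.1 (hperf y.2) y.2)
  intro y hy
  have hwW : w ∈ W := by
    rw [Module.End.mem_eigenspace_iff, hΩ, LinearMap.sum_apply]
    exact hw
  have h1 := hfin (r ⟨y, hy⟩) ⟨_, rfl⟩
  have h2 := congrArg (fun f : Module.End ℝ W => ((f ⟨w, hwW⟩ : W) : M)) h1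
  exact h2

/-- If all elements have purely imaginary eigenvalues, then the Casimir element gives the
hypotheses of the Perron-Frobenius argument. -/
theorem T_CAS' (hNT : S_NT) : S_CAS := by
  classical
  intro T _ _ _ b g hg hb hre ⟨x0, _, hx0⟩
  obtain ⟨m, x, hx, -, hex⟩ := exists_basis g (fun x hx => (hNT.1 T x (hre x hx)).1) hg.trace
  have hn : (finrank ℝ T : ℝ) ≠ 0 := by
    intro h0
    have h1 : finrank ℝ T = 0 := by exact_mod_cast h0
    have : Subsingleton T := finrank_zero_iff.mp h1
    apply hx0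
    ext v
    exact Subsingleton.elim _ _
  set Ω : Module.End ℝ T := ∑ i, x i * x i with hΩ
  have hΩc : ∀ y ∈ g, y * Ω = Ω * y := by
    intro y hy
    have h1 := casimir hg.bracket hx hex (LinearMap.mul ℝ (Module.End ℝ T)) hy
    have h2 : ∀ i, (LinearMap.mul ℝ (Module.End ℝ T)) (y * x i - x i * y) (x i) +
        (LinearMap.mul ℝ (Module.End ℝ T)) (x i) (y * x i - x i * y) =
        y * (x i * x i) - (x i * x i) * y := by
      intro i
      simp only [LinearMap.mul_apply']
      noncomm_ring
    rw [Finset.sum_congr rfl (fun i _ => h2 i), Finset.sum_sub_distrib, ← Finset.mul_sum,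
      ← Finset.sum_mul] at h1
    exact sub_eq_zero.mp h1
  obtain ⟨c, hc⟩ := hg.comm Ω hΩc
  have hΩu : ∀ u, ∑ i, x i (x i u) = c • u := by
    intro u
    have h1 := congrArg (fun f : Module.End ℝ T => f u) hc
    rw [hΩ] at h1
    simp only [LinearMap.sum_apply, Module.End.mul_apply, LinearMap.smul_apply,
      Module.End.one_apply] at h1
    exact h1
  have hΦ : ∀ (h : Fm T) (u v : T), (∑ i, phi1 (x i)) h u v = ∑ i, h (x i u) (x i v) := by
    intro h u v
    rw [LinearMap.sum_apply, LinearMap.sum_apply, LinearMap.sum_apply]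
    rfl
  refine ⟨Fin m, inferInstance, x, ∑ i, phi1 (x i), -c, kap b hg.nondeg, hΦ, ?_, ?_, ?_, ?_⟩
  · refine LinearMap.ext₂ fun u v => ?_
    rw [hΦ, LinearMap.smul_apply, LinearMap.smul_apply, smul_eq_mul]
    have h1 : ∀ i, b (x i u) (x i v) = - b (x i (x i u)) v := by
      intro i
      have := hg.skew (x i) (hx i) (x i u) v
      linarith
    rw [Finset.sum_congr rfl (fun i _ => h1 i), Finset.sum_neg_distrib]
    have h2 : ∑ i, b (x i (x i u)) v = b (∑ i, x i (x i u)) v := by
      rw [map_sum, LinearMap.sum_apply]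
    rw [h2, hΩu, map_smul, LinearMap.smul_apply, smul_eq_mul]
    ring
  · have h1 : opP b hg.nondeg b = 1 := opP_unique _ _ _ _ fun u v => rfl
    rw [kap_apply, h1, LinearMap.trace_one, inv_mul_cancel₀ hn]
  · intro h
    have h1 : opP b hg.nondeg ((∑ i, phi1 (x i)) h) = - ∑ i, x i * opP b hg.nondeg h * x i := by
      apply opP_unique
      intro u v
      rw [hΦ, LinearMap.neg_apply, LinearMap.sum_apply, map_neg, LinearMap.neg_apply, map_sum,
        LinearMap.sum_apply, ← Finset.sum_neg_distrib]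
      apply Finset.sum_congr rfl
      intro i _
      rw [Module.End.mul_apply, Module.End.mul_apply]
      have h2 := hg.skew (x i) (hx i) (opP b hg.nondeg h (x i u)) v
      rw [opP_spec] at h2
      linarith
    rw [kap_apply, kap_apply, h1, map_neg, map_sum]
    have h3 : ∀ i, LinearMap.trace ℝ T (x i * opP b hg.nondeg h * x i) =
        LinearMap.trace ℝ T (opP b hg.nondeg h * (x i * x i)) := by
      intro i
      rw [mul_assoc, tr_comm, mul_assoc]
    rw [Finset.sum_congr rfl (fun i _ => h3 i), ← map_sum, ← Finset.mul_sum, ← hΩ, hc,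
      mul_smul_comm, mul_one, map_smul, smul_eq_mul]
    ring
  · intro h θ hθ hh
    have hperf := perfect hg hb hx hex
    have h1 : ∀ y ∈ g, rho y h = 0 := by
      have := core hNT (M := T →ₗ[ℝ] T →ₗ[ℝ] ℝ) hg.bracket hx hex hperf rhoL
        (by
          intro a a'
          refine LinearMap.ext fun h => ?_
          exact rho_bracket a a' h)
        (by
          intro a ha
          exact hNT.2 T a (rho a) (fun h u v => rho_apply a h u v) (hre a ha))
        (2 * (θ + c)) (by linarith) h
        (by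
          refine LinearMap.ext₂ fun u v => ?_
          have e0 : ∀ i, rho (x i) (rho (x i) h) u v =
              h (x i (x i u)) v + 2 * h (x i u) (x i v) + h u (x i (x i v)) := by
            intro i
            rw [rho_apply, rho_apply, rho_apply]
            ring
          have e1 : ∑ i, h (x i (x i u)) v = c * h u v := by
            have : ∑ i, h (x i (x i u)) v = h (∑ i, x i (x i u)) v := by
              rw [map_sum, LinearMap.sum_apply]
            rw [this, hΩu, map_smul, LinearMap.smul_apply, smul_eq_mul]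
          have e2 : ∑ i, h u (x i (x i v)) = c * h u v := by
            rw [← map_sum, hΩu, map_smul, smul_eq_mul]
          have e3 : ∑ i, h (x i u) (x i v) = θ * h u v := by
            rw [← hΦ, hh]
            rfl
          have e4 : (∑ i, rho (x i) (rho (x i) h)) u v =
              ∑ i, rho (x i) (rho (x i) h) u v := by
            rw [LinearMap.sum_apply, LinearMap.sum_apply]
          have e5 : (∑ i, rho (x i) (rho (x i) h)) u v = (2 * (θ + c)) * h u v := by
            rw [e4, Finset.sum_congr rfl (fun i _ => e0 i), Finset.sum_add_distrib,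
              Finset.sum_add_distrib, ← Finset.mul_sum, e1, e2, e3]
            ring
          exact e5)
      exact this
    have h2 : ∀ y ∈ g, y * opP b hg.nondeg h = opP b hg.nondeg h * y := by
      intro y hy
      ext u
      have h3 : y (opP b hg.nondeg h u) - opP b hg.nondeg h (y u) = 0 := by
        apply hg.nondeg
        intro v
        rw [map_sub, LinearMap.sub_apply, opP_spec]
        have h4 := hg.skew y hy (opP b hg.nondeg h u) v
        rw [opP_spec] at h4
        have h5 : rho y h u v = 0 := by rw [h1 y hy]; rfl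
        rw [rho_apply] at h5
        linarith
      exact sub_eq_zero.mp h3
    obtain ⟨c', hc'⟩ := hg.comm _ h2
    refine ⟨c', ?_⟩
    refine LinearMap.ext₂ fun u v => ?_
    rw [← opP_spec b hg.nondeg h u v, hc']
    simp only [LinearMap.smul_apply, Module.End.one_apply, map_smul]

/-- The statement for the project. -/
theorem T_CAS : Pool.Agent.W516.K3.S_SUM → Pool.Agent.W516.K3.S_NT →
    Pool.Agent.W516.K3.S_CAS := fun _ h => T_CAS' h

end

end Pool.Agent.W308.DK.CAS
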