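import Pool.Agent.W516.K3.Defs

set_option autoImplicit false
set_option linter.all false

/-!
The first fundamental theorem for the special orthogonal Lie algebra in low degree (helper308).
-/

open Module Function

namespace Pool.Agent.W308.DK

open Pool.Agent.W516.K3

/-- Diagonal dominance (as `Pool.Agent.W516.Orth.dom`). -/
theorem dom {Ω : Type*} [Field Ω] [CharZero Ω] {G : Type*} [Finite G] {ι : Type*} (s : Finset ι)
    (τ : ι → G → G) (c : ℕ) (hc : s.card < c) (h : G → Ω)
    (hh : ∀ g, (c : Ω) * h g + ∑ i ∈ s, h (τ i g) = 0) (g : G) : h g = 0 := by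
  by_contra hg
  obtain ⟨ℓ, hℓ⟩ : ∃ ℓ : Module.Dual ℚ Ω, ℓ (h g) ≠ 0 := by
    by_contra hcon
    push Not at hcon
    exact hg ((Module.forall_dual_apply_eq_zero_iff ℚ _).1 hcon)
  have _ : Nonempty G := ⟨g⟩
  obtain ⟨g0, hg0⟩ := Finite.exists_max (fun g => |ℓ (h g)|)
  have h1 : (c : ℚ) * ℓ (h g0) + ∑ i ∈ s, ℓ (h (τ i g0)) = 0 := by
    have h2 := congrArg ℓ (hh g0)
    rw [map_add, map_sum, map_zero] at h2
    have h3 : (c : Ω) * h g0 = (c : ℚ) • h g0 := by
      rw [Algebra.smul_def]
      simp
    rw [h3, map_smul, smul_eq_mul] at h2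
    exact h2
  have h2 : 0 < |ℓ (h g0)| := lt_of_lt_of_le (abs_pos.2 hℓ) (hg0 g)
  have h3 : (c : ℚ) * |ℓ (h g0)| ≤ (s.card : ℚ) * |ℓ (h g0)| := by
    have h4 : (c : ℚ) * ℓ (h g0) = -∑ i ∈ s, ℓ (h (τ i g0)) := by linear_combination h1
    have h5 : |(c : ℚ) * ℓ (h g0)| = (c : ℚ) * |ℓ (h g0)| := by
      rw [abs_mul, Nat.abs_cast]
    rw [← h5, h4, abs_neg]
    refine (Finset.abs_sum_le_sum_abs _ _).trans ?_
    refine (Finset.sum_le_card_nsmul _ _ _ fun i _ => hg0 (τ i g0)).trans ?_
    rw [nsmul_eq_mul]
  have h4 : (s.card : ℚ) < c := by exact_mod_cast hc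
  nlinarith

section

variable {F T : Type} [Field F] [AddCommGroup T] [Module F T]
variable {κ : Type} [Fintype κ] [DecidableEq κ]

/-- the other indices -/
abbrev Kj (j p : κ) : Type := {l : κ // l ≠ j ∧ l ≠ p}

/-- extension by zero -/
def v0 (j p : κ) (v' : Kj j p → T) : κ → T := fun l => if h : l ≠ j ∧ l ≠ p then v' ⟨l, h⟩ else 0

/-- restriction -/
def res (j p : κ) (v : κ → T) : Kj j p → T := fun l => v l.1

lemma v0_update (j p : κ) (v' : Kj j p → T) (l : Kj j p) (x : T) :
    v0 j p (update v' l x) = update (v0 j p v') l.1 x := by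
  funext i
  by_cases hi : i = l.1
  · subst hi
    simp [v0, l.2]
  · rw [update_of_ne hi]
    unfold v0
    by_cases h : i ≠ j ∧ i ≠ p
    · rw [dif_pos h, dif_pos h, update_of_ne]
      intro h2
      exact hi (congrArg Subtype.val h2)
    · rw [dif_neg h, dif_neg h]

lemma res_update_of (j p : κ) (v : κ → T) (i : κ) (h : i ≠ j ∧ i ≠ p) (x : T) :
    res j p (update v i x) = update (res j p v) ⟨i, h⟩ x := by
  funext l
  unfold res
  by_cases hl : l = ⟨i, h⟩
  · subst hl
    simp
  · rw [update_of_ne hl, update_of_ne]
    intro h2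
    exact hl (Subtype.ext h2)

lemma res_update_not (j p : κ) (v : κ → T) (i : κ) (h : ¬ (i ≠ j ∧ i ≠ p)) (x : T) :
    res j p (update v i x) = res j p v := by
  funext l
  unfold res
  rw [update_of_ne]
  intro h2
  exact h (h2 ▸ l.2)

lemma upd_v0 (j p : κ) (v : κ → T) (s t : T) :
    update (update (v0 j p (res j p v)) p t) j s = update (update v p t) j s := by
  funext i
  by_cases hj : i = j
  · subst hj; simp
  · rw [update_of_ne hj, update_of_ne hj]
    by_cases hp : i = p
    · subst hp; simp
    · rw [update_of_ne hp, update_of_ne hp]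
      simp [v0, res, hj, hp]

/-- the form with two variables fixed -/
def Cm (j p : κ) (φ : MultilinearMap F (fun _ : κ => T) F) (s t : T) :
    MultilinearMap F (fun _ : Kj j p => T) F :=
  MultilinearMap.mk' (fun v' => φ (update (update (v0 j p v') p t) j s))
    (fun v' l x y => by
      have h1 : ∀ z, update (update (v0 j p (update v' l z)) p t) j s =
          update (update (update (v0 j p v') p t) j s) l.1 z := by
        intro z
        rw [v0_update, update_comm l.2.2, update_comm l.2.1]
      simp only [h1, MultilinearMap.map_update_add])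
    (fun v' l c x => by
      have h1 : ∀ z, update (update (v0 j p (update v' l z)) p t) j s =
          update (update (update (v0 j p v') p t) j s) l.1 z := by
        intro z
        rw [v0_update, update_comm l.2.2, update_comm l.2.1]
      simp only [h1, MultilinearMap.map_update_smul])

lemma Cm_apply (j p : κ) (φ : MultilinearMap F (fun _ : κ => T) F) (s t : T) (v' : Kj j p → T) :
    Cm j p φ s t v' = φ (update (update (v0 j p v') p t) j s) := rfl

/-- two slots as a bilinear map -/
def Bm (j p : κ) (hjp : j ≠ p) (φ : MultilinearMap F (fun _ : κ => T) F) (v : κ → T) :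
    T →ₗ[F] T →ₗ[F] F :=
  LinearMap.mk₂ F (fun s t => φ (update (update v p t) j s))
    (fun s s' t => by rw [MultilinearMap.map_update_add])
    (fun c s t => by rw [MultilinearMap.map_update_smul])
    (fun s t t' => by
      have hc : ∀ z, update (update v p z) j s = update (update v j s) p z :=
        fun z => update_comm hjp.symm _ _ _
      simp only [hc, MultilinearMap.map_update_add])
    (fun c s t => by
      have hc : ∀ z, update (update v p z) j s = update (update v j s) p z :=
        fun z => update_comm hjp.symm _ _ _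
      simp only [hc, MultilinearMap.map_update_smul])

lemma Bm_apply (j p : κ) (hjp : j ≠ p) (φ : MultilinearMap F (fun _ : κ => T) F) (v : κ → T)
    (s t : T) : Bm j p hjp φ v s t = φ (update (update v p t) j s) := rfl

/-- multiplication by a pair -/
def Rm (j p : κ) (hjp : j ≠ p) (b : T →ₗ[F] T →ₗ[F] F) :
    MultilinearMap F (fun _ : Kj j p => T) F →ₗ[F] MultilinearMap F (fun _ : κ => T) F where
  toFun ψ := MultilinearMap.mk' (fun v => b (v p) (v j) * ψ (res j p v))
    (fun v i x y => by
      by_cases h : i ≠ j ∧ i ≠ p
      · rw [res_update_of j p v i h, res_update_of j p v i h, res_update_of j p v i h,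
          update_of_ne h.1.symm, update_of_ne h.1.symm, update_of_ne h.1.symm,
          update_of_ne h.2.symm, update_of_ne h.2.symm, update_of_ne h.2.symm,
          MultilinearMap.map_update_add]
        ring
      · rw [res_update_not j p v i h, res_update_not j p v i h, res_update_not j p v i h]
        by_cases hj : i = j
        · subst hj
          rw [update_self, update_self, update_self, update_of_ne hjp.symm, update_of_ne hjp.symm,
            update_of_ne hjp.symm, map_add]
          ring
        · have hp : i = p := by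
            by_contra hp
            exact h ⟨hj, hp⟩
          subst hp
          rw [update_self, update_self, update_self, update_of_ne hjp, update_of_ne hjp,
            update_of_ne hjp, map_add, LinearMap.add_apply]
          ring)
    (fun v i c x => by
      by_cases h : i ≠ j ∧ i ≠ p
      · rw [res_update_of j p v i h, res_update_of j p v i h,
          update_of_ne h.1.symm, update_of_ne h.1.symm,
          update_of_ne h.2.symm, update_of_ne h.2.symm,
          MultilinearMap.map_update_smul]
        simp only [smul_eq_mul]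
        ring
      · rw [res_update_not j p v i h, res_update_not j p v i h]
        by_cases hj : i = j
        · subst hj
          rw [update_self, update_self, update_of_ne hjp.symm, update_of_ne hjp.symm, map_smul]
          simp only [smul_eq_mul]
          ring
        · have hp : i = p := by
            by_contra hp
            exact h ⟨hj, hp⟩
          subst hp
          rw [update_self, update_self, update_of_ne hjp, update_of_ne hjp, map_smul,
            LinearMap.smul_apply]
          simp only [smul_eq_mul]
          ring)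
  map_add' ψ ψ' := by
    ext v
    show b (v p) (v j) * (ψ (res j p v) + ψ' (res j p v)) =
      b (v p) (v j) * ψ (res j p v) + b (v p) (v j) * ψ' (res j p v)
    ring
  map_smul' c ψ := by
    ext v
    show b (v p) (v j) * (c * ψ (res j p v)) = c * (b (v p) (v j) * ψ (res j p v))
    ring

lemma Rm_apply (j p : κ) (hjp : j ≠ p) (b : T →ₗ[F] T →ₗ[F] F)
    (ψ : MultilinearMap F (fun _ : Kj j p => T) F) (v : κ → T) :
    Rm j p hjp b ψ v = b (v p) (v j) * ψ (res j p v) := rfl

/-- the extended pairing -/
lemma pair_ext (j p : κ) (hjp : j ≠ p) (b : T →ₗ[F] T →ₗ[F] F)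
    (ψ : MultilinearMap F (fun _ : Kj j p => T) F) (h : PairProd b ψ) :
    PairProd b (Rm j p hjp b ψ) := by
  obtain ⟨m, e, he⟩ := h
  let f : Fin (m + 1) × Fin 2 → κ := fun x =>
    Fin.cases (if x.2 = 0 then p else j) (fun l => (e (l, x.2)).1) x.1
  have f0 : f (0, 0) = p := rfl
  have f1 : f (0, 1) = j := rfl
  have fs : ∀ (l : Fin m) (i : Fin 2), f (l.succ, i) = (e (l, i)).1 := fun l i => rfl
  have hf : Function.Bijective f := by
    constructor
    · rintro ⟨a, i⟩ ⟨a', i'⟩ haa
      revert haa
      refine Fin.cases ?_ (fun l => ?_) a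
      · refine Fin.cases ?_ (fun l' => ?_) a'
        · intro h
          fin_cases i <;> fin_cases i'
          · rfl
          · exact absurd h.symm hjp
          · exact absurd h hjp
          · rfl
        · intro h
          rw [fs] at h
          fin_cases i
          · exact absurd h.symm (e (l', i')).2.2
          · exact absurd h.symm (e (l', i')).2.1
      · refine Fin.cases ?_ (fun l' => ?_) a'
        · intro h
          rw [fs] at h
          fin_cases i'
          · exact absurd h (e (l, i)).2.2
          · exact absurd h (e (l, i)).2.1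
        · intro h
          rw [fs, fs] at h
          have h2 := e.injective (Subtype.ext h)
          rw [Prod.mk.injEq] at h2
          rw [h2.1, h2.2]
    · intro l
      by_cases hj : l = j
      · exact ⟨(0, 1), by rw [f1, hj]⟩
      · by_cases hp : l = p
        · exact ⟨(0, 0), by rw [f0, hp]⟩
        · obtain ⟨⟨a, i⟩, hx⟩ := e.surjective ⟨l, hj, hp⟩
          exact ⟨(a.succ, i), by rw [fs, hx]⟩
  refine ⟨m + 1, Equiv.ofBijective f hf, fun v => ?_⟩
  rw [Rm_apply, he, Fin.prod_univ_succ]
  rfl

end

/-! ### the contraction identity -/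

section contraction

variable {F T : Type} [Field F] [AddCommGroup T] [Module F T]
variable {κ : Type} [Fintype κ] [DecidableEq κ]
variable (b : T →ₗ[F] T →ₗ[F] F) (hs : ∀ u v, b u v = b v u)
variable {n : ℕ} (e e' : Fin n → T) (h1 : ∀ a, b (e a) (e' a) = 1)
  (h2 : ∀ u, ∑ a, b u (e' a) • e a = u) (h3 : ∀ u, ∑ a, b (e a) u • e' a = u)

include hs in
lemma wdg_skew (u w : T) (s t : T) : b (wdg b u w s) t + b s (wdg b u w t) = 0 := by
  unfold wdg
  simp only [LinearMap.sub_apply, LinearMap.smulRight_apply, map_sub, map_smul,
    LinearMap.smul_apply, smul_eq_mul]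
  rw [hs s u, hs s w]
  ring

include h2 h3 in
lemma contract_inv (B : T →ₗ[F] T →ₗ[F] F) (x : Module.End F T)
    (hx : ∀ u v, b (x u) v + b u (x v) = 0) :
    ∑ a, (B (x (e a)) (e' a) + B (e a) (x (e' a))) = 0 := by
  rw [Finset.sum_add_distrib]
  have e1 : ∑ a, B (x (e a)) (e' a) = ∑ a, ∑ c, b (x (e a)) (e' c) * B (e c) (e' a) := by
    refine Finset.sum_congr rfl fun a _ => ?_
    conv_lhs => rw [← h2 (x (e a))]
    rw [map_sum, LinearMap.sum_apply]
    refine Finset.sum_congr rfl fun c _ => ?_
    rw [map_smul, LinearMap.smul_apply, smul_eq_mul]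
  have e2 : ∑ a, B (e a) (x (e' a)) = ∑ a, ∑ c, b (e c) (x (e' a)) * B (e a) (e' c) := by
    refine Finset.sum_congr rfl fun a _ => ?_
    conv_lhs => rw [← h3 (x (e' a))]
    rw [map_sum]
    refine Finset.sum_congr rfl fun c _ => ?_
    rw [map_smul, smul_eq_mul]
  rw [e1, e2, Finset.sum_comm, ← Finset.sum_add_distrib]
  refine Finset.sum_eq_zero fun a _ => ?_
  rw [← Finset.sum_add_distrib]
  refine Finset.sum_eq_zero fun c _ => ?_
  have := hx (e c) (e' a)
  linear_combination (B (e a) (e' c)) * this

lemma split_sum (j p : κ) (hjp : j ≠ p) (g : κ → F) :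
    ∑ i, g i = g j + (g p + ∑ l : Kj j p, g l.1) := by
  have h : (Finset.univ : Finset κ) =
      insert j (insert p (Finset.univ.filter fun l => l ≠ j ∧ l ≠ p)) := by
    ext l
    simp only [Finset.mem_univ, Finset.mem_insert, Finset.mem_filter, true_and, true_iff]
    tauto
  rw [h, Finset.sum_insert, Finset.sum_insert, Finset.sum_subtype _ (p := fun l => l ≠ j ∧ l ≠ p)]
  · intro x; simp
  · simp
  · simp [hjp]

include h2 h3 in
lemma CC_killed (j p : κ) (hjp : j ≠ p) (φ : MultilinearMap F (fun _ : κ => T) F)
    (x : Module.End F T) (hx : ∀ u v, b (x u) v + b u (x v) = 0) (hφ : KillsM x φ) :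
    KillsM x (∑ a, Cm j p φ (e a) (e' a)) := by
  intro v'
  have hK : ∀ a, ∑ i, φ (update (update (update (v0 j p v') p (e' a)) j (e a)) i
      (x ((update (update (v0 j p v') p (e' a)) j (e a)) i))) = 0 := fun a => hφ _
  have hsum : ∑ a, ∑ i, φ (update (update (update (v0 j p v') p (e' a)) j (e a)) i
      (x ((update (update (v0 j p v') p (e' a)) j (e a)) i))) = 0 :=
    Finset.sum_eq_zero fun a _ => hK a
  have hterm : ∀ a, ∑ i, φ (update (update (update (v0 j p v') p (e' a)) j (e a)) i
      (x ((update (update (v0 j p v') p (e' a)) j (e a)) i))) =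
      (Bm j p hjp φ (v0 j p v') (x (e a)) (e' a) + Bm j p hjp φ (v0 j p v') (e a) (x (e' a))) +
        ∑ l : Kj j p, Cm j p φ (e a) (e' a) (update v' l (x (v' l))) := by
    intro a
    rw [split_sum j p hjp, ← add_assoc]
    congr 1
    · congr 1
      · rw [update_self, update_idem, Bm_apply]
      · rw [update_of_ne hjp.symm, update_self, Bm_apply, update_comm hjp.symm, update_idem,
          update_comm hjp.symm]
    · refine Finset.sum_congr rfl fun l _ => ?_
      rw [Cm_apply, v0_update, update_of_ne l.2.1, update_of_ne l.2.2]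
      have h5 : v0 j p v' l.1 = v' l := by
        unfold v0
        rw [dif_pos l.2]
      rw [h5]
      congr 1
      rw [update_comm l.2.2, update_comm l.2.1]
  simp only [hterm] at hsum
  rw [Finset.sum_add_distrib, contract_inv b e e' h2 h3 _ x hx, zero_add, Finset.sum_comm] at hsum
  rw [← hsum]
  refine Finset.sum_congr rfl fun l _ => ?_
  rw [MultilinearMap.sum_apply]

include hs h1 h2 h3 in
lemma main_eq (φ : MultilinearMap F (fun _ : κ => T) F)
    (hφ : ∀ x : Module.End F T, (∀ u v, b (x u) v + b u (x v) = 0) → KillsM x φ) (p : κ)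
    (v : κ → T) :
    ((n : F) - 1) * φ v + ∑ j ∈ Finset.univ.erase p, φ (v ∘ Equiv.swap j p) =
      ∑ j ∈ Finset.univ.erase p, b (v p) (v j) *
        (∑ a, φ (update (update v p (e' a)) j (e a))) := by
  have hK : ∀ a, ∑ j, φ (update (update v p (e' a)) j
      (wdg b (v p) (e a) ((update v p (e' a)) j))) = 0 := fun a =>
    hφ _ (wdg_skew b hs (v p) (e a)) _
  have hsum : ∑ j, ∑ a, φ (update (update v p (e' a)) j
      (wdg b (v p) (e a) ((update v p (e' a)) j))) = 0 := by
    rw [Finset.sum_comm]
    exact Finset.sum_eq_zero fun a _ => hK a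
  rw [← Finset.add_sum_erase _ _ (Finset.mem_univ p)] at hsum
  have hp : ∑ a, φ (update (update v p (e' a)) p
      (wdg b (v p) (e a) ((update v p (e' a)) p))) = ((n : F) - 1) * φ v := by
    have h5 : ∀ a, φ (update (update v p (e' a)) p
        (wdg b (v p) (e a) ((update v p (e' a)) p))) =
        φ v - φ.toLinearMap v p (b (v p) (e' a) • e a) := by
      intro a
      rw [update_self, update_idem]
      have h6 : wdg b (v p) (e a) (e' a) = v p - b (v p) (e' a) • e a := by
        unfold wdg
        simp only [LinearMap.sub_apply, LinearMap.smulRight_apply]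
        rw [h1, one_smul]
      rw [h6]
      have h7 : ∀ z, φ (update v p z) = φ.toLinearMap v p z := fun z => rfl
      rw [h7, map_sub, ← h7 (v p), update_eq_self]
    simp only [h5]
    rw [Finset.sum_sub_distrib, ← map_sum (φ.toLinearMap v p), h2, Finset.sum_const, Finset.card_univ,
      Fintype.card_fin, nsmul_eq_mul]
    have h7 : φ.toLinearMap v p (v p) = φ v := by
      show φ (update v p (v p)) = φ v
      rw [update_eq_self]
    rw [h7]
    ring
  have hj : ∀ j ∈ Finset.univ.erase p, ∑ a, φ (update (update v p (e' a)) j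
      (wdg b (v p) (e a) ((update v p (e' a)) j))) = φ (v ∘ Equiv.swap j p) -
        b (v p) (v j) * (∑ a, φ (update (update v p (e' a)) j (e a))) := by
    intro j hj
    have hjp : j ≠ p := Finset.ne_of_mem_erase hj
    have h5 : ∀ a, φ (update (update v p (e' a)) j
        (wdg b (v p) (e a) ((update v p (e' a)) j))) =
        Bm j p hjp φ v (v p) (b (e a) (v j) • e' a) -
          b (v p) (v j) * φ (update (update v p (e' a)) j (e a)) := by
      intro a
      rw [update_of_ne hjp]
      have h6 : wdg b (v p) (e a) (v j) = b (e a) (v j) • v p - b (v p) (v j) • e a := by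
        unfold wdg
        simp only [LinearMap.sub_apply, LinearMap.smulRight_apply]
      rw [h6, ← Bm_apply j p hjp, ← Bm_apply j p hjp]
      simp only [map_sub, map_smul, LinearMap.sub_apply, LinearMap.smul_apply, smul_eq_mul]
    simp only [h5]
    rw [Finset.sum_sub_distrib, ← map_sum, h3, Finset.mul_sum, Bm_apply]
    congr 2
    funext i
    by_cases hij : i = j
    · subst hij
      rw [update_self, comp_apply, Equiv.swap_apply_left]
    · rw [update_of_ne hij]
      by_cases hip : i = p
      · subst hip
        rw [update_self, comp_apply, Equiv.swap_apply_right]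
      · rw [update_of_ne hip, comp_apply, Equiv.swap_apply_of_ne_of_ne hij hip]
  rw [hp, Finset.sum_congr rfl hj, Finset.sum_sub_distrib] at hsum
  linear_combination hsum

end contraction

/-- permutation of the variables -/
lemma kills_perm {F T : Type} [Field F] [AddCommGroup T] [Module F T] {κ : Type} [Fintype κ]
    [DecidableEq κ] (x : Module.End F T) (φ : MultilinearMap F (fun _ : κ => T) F)
    (h : KillsM x φ) (π : Equiv.Perm κ) : KillsM x (φ.domDomCongr π) := by
  intro v
  have h1 := h (fun i => v (π i))
  rw [← Equiv.sum_comp π] 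
  rw [← h1]
  refine Finset.sum_congr rfl fun i _ => ?_
  rw [MultilinearMap.domDomCongr_apply]
  congr 1
  funext l
  by_cases hl : l = i
  · subst hl
    rw [update_self, update_self]
  · rw [update_of_ne hl, update_of_ne]
    exact fun h => hl (π.injective h)

theorem T_FFT : S_FFT := by
  intro F T _ _ _ _ _ b hs hnd κ _ _ φ hcard hφ
  set n := finrank F T with hn
  have hB : LinearMap.BilinForm.Nondegenerate b :=
    ⟨hnd, fun y h => hnd y fun v => by rw [hs]; exact h v⟩
  let e : Basis (Fin n) F T := Module.finBasis F T
  let e' : Basis (Fin n) F T := LinearMap.BilinForm.dualBasis b hB e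
  have d1 : ∀ a c, b (e a) (e' c) = if a = c then 1 else 0 := by
    intro a c
    rw [hs]
    exact LinearMap.BilinForm.apply_dualBasis_left hB e c a
  have h1 : ∀ a, b (e a) (e' a) = 1 := fun a => by rw [d1, if_pos rfl]
  have h3 : ∀ u, ∑ a, b (e a) u • e' a = u := by
    intro u
    conv_rhs => rw [← e'.sum_repr u]
    refine Finset.sum_congr rfl fun a _ => ?_
    congr 1
    rw [hs]
    exact (LinearMap.BilinForm.dualBasis_repr_apply hB e u a).symm
  have h2 : ∀ u, ∑ a, b u (e' a) • e a = u := by
    intro u
    conv_rhs => rw [← e.sum_repr u]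
    refine Finset.sum_congr rfl fun a _ => ?_
    congr 1
    conv_lhs => rw [← e.sum_repr u]
    rw [map_sum, LinearMap.sum_apply, Finset.sum_eq_single a]
    · rw [map_smul, LinearMap.smul_apply, h1, smul_eq_mul, mul_one]
    · intro c _ hc
      rw [map_smul, LinearMap.smul_apply, d1, if_neg hc, smul_zero]
    · intro h; exact absurd (Finset.mem_univ a) h
  clear_value e e'
  suffices H : ∀ r : ℕ, ∀ (κ : Type) [Fintype κ] [DecidableEq κ]
      (φ : MultilinearMap F (fun _ : κ => T) F), Fintype.card κ = r → r < n →
      (∀ x : Module.End F T, (∀ u v, b (x u) v + b u (x v) = 0) → KillsM x φ) →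
      φ ∈ Submodule.span F {ψ | PairProd b ψ} from
    H _ κ φ rfl hcard hφ
  clear hφ hcard φ
  intro r
  induction r using Nat.strong_induction_on with
  | _ r ih =>
    intro κ _ _ φ hr hrn hφ
    rcases Nat.eq_zero_or_pos r with h0 | hpos
    · subst h0
      haveI : IsEmpty κ := Fintype.card_eq_zero_iff.1 hr
      have h4 : φ = (φ 0) • MultilinearMap.constOfIsEmpty F (fun _ : κ => T) (1 : F) := by
        ext v
        rw [MultilinearMap.smul_apply, MultilinearMap.constOfIsEmpty_apply, smul_eq_mul,
          Function.const_apply, mul_one]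
        congr 1
        exact Subsingleton.elim _ _
      rw [h4]
      refine Submodule.smul_mem _ _ (Submodule.subset_span ?_)
      refine ⟨0, Equiv.equivOfIsEmpty _ _, fun v => ?_⟩
      simp
    · obtain ⟨p⟩ : Nonempty κ := Fintype.card_pos_iff.1 (hr ▸ hpos)
      set Q := Submodule.span F {ψ : MultilinearMap F (fun _ : κ => T) F | PairProd b ψ} with hQ
      -- the identity modulo `Q`
      have hA : ∀ φ : MultilinearMap F (fun _ : κ => T) F,
          (∀ x : Module.End F T, (∀ u v, b (x u) v + b u (x v) = 0) → KillsM x φ) →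
          ((n : F) - 1) • φ + ∑ j ∈ Finset.univ.erase p, φ.domDomCongr (Equiv.swap j p) ∈ Q := by
        intro φ hφ
        have h5 : ((n : F) - 1) • φ + ∑ j ∈ Finset.univ.erase p, φ.domDomCongr (Equiv.swap j p) =
            ∑ j ∈ (Finset.univ.erase p).attach,
              Rm j.1 p (Finset.ne_of_mem_erase j.2) b (∑ a, Cm j.1 p φ (e a) (e' a)) := by
          ext v
          have h6 := main_eq b hs (fun a => e a) (fun a => e' a) h1 h2 h3 φ hφ p v
          rw [MultilinearMap.add_apply, MultilinearMap.smul_apply, MultilinearMap.sum_apply,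
            MultilinearMap.sum_apply, smul_eq_mul]
          have h7 : ∀ j, (φ.domDomCongr (Equiv.swap j p)) v = φ (v ∘ Equiv.swap j p) :=
            fun j => rfl
          simp only [h7]
          rw [h6, ← Finset.sum_attach]
          refine Finset.sum_congr rfl fun j _ => ?_
          rw [Rm_apply, MultilinearMap.sum_apply]
          congr 1
          refine Finset.sum_congr rfl fun a _ => ?_
          rw [Cm_apply, upd_v0]
        rw [h5]
        refine Submodule.sum_mem _ fun j _ => ?_
        have hjp : j.1 ≠ p := Finset.ne_of_mem_erase j.2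
        have hlt : Fintype.card (Kj j.1 p) < r := by
          rw [← hr]
          exact Fintype.card_subtype_lt (x := p) (by simp)
        have h8 := ih _ hlt (Kj j.1 p) (∑ a, Cm j.1 p φ (e a) (e' a)) rfl (hlt.trans hrn)
          (fun x hx => CC_killed b (fun a => e a) (fun a => e' a) h2 h3 j.1 p hjp φ x hx (hφ x hx))
        have h9 : (Submodule.span F {ψ | PairProd b ψ}).map (Rm j.1 p hjp b) ≤ Q := by
          rw [Submodule.map_span, Submodule.span_le]
          rintro _ ⟨ψ, hψ, rfl⟩
          exact Submodule.subset_span (pair_ext j.1 p hjp b ψ hψ)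
        exact h9 ⟨_, h8, rfl⟩
      -- diagonal dominance
      by_contra hcon
      obtain ⟨ℓ, hℓ, hker⟩ := Submodule.exists_le_ker_of_notMem hcon
      have hcardp : (Finset.univ.erase p).card < n - 1 := by
        rw [Finset.card_erase_of_mem (Finset.mem_univ p), Finset.card_univ, hr]
        omega
      have hd := dom (Ω := F) (G := Equiv.Perm κ) (Finset.univ.erase p)
        (fun j π => Equiv.swap j p * π) (n - 1) hcardp (fun π => ℓ (φ.domDomCongr π)) (by
          intro π
          have h5 := hA (φ.domDomCongr π) fun x hx => kills_perm x φ (hφ x hx) π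
          have h6 := hker h5
          rw [LinearMap.mem_ker, map_add, map_smul, map_sum, smul_eq_mul] at h6
          have h7 : ((n - 1 : ℕ) : F) = (n : F) - 1 := by
            rw [Nat.cast_sub (by omega), Nat.cast_one]
          rw [h7]
          exact h6) 1
      exact hℓ hd

end Pool.Agent.W308.DK
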